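import Pool.Agent.Y602.EQ.Verify
import Pool.Agent.H609R2.NPClosure

/-!
# EQUISTABLE is coNP-complete

The decision problem EQUISTABLE has as input a finite simple graph, given by an adjacency matrix
`M : List (List Bool)`; `matGraph M` is the graph.

Membership in `coNP`.  By linear programming duality, a graph is not equistable if and only if
there are few maximal stable sets `S`, each with two small natural numbers `p S`, `q S`, such that
either `∑ (p S - q S) 1_S` is a vector with nonnegative entries while `∑ (p S - q S) ≤ 0`, and one
of these inequalities is strict, or `∑ (p S - q S) 1_S = D 1_T` and `∑ (p S - q S) = D` for some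
`D > 0` and some set `T` that is not a maximal stable set.  (If there is no certificate of the first
kind then there are positive weights for which all maximal stable sets have the same weight; if
there is none of the second kind, then a small perturbation of the weights, in the linear space
given by the equations, distinguishes every other set `T` from them.)  The numbers are bounded by
means of Caratheodory's theorem and Cramer's rule.

Hardness for `coNP` is `EquistableCoNPHard` of the starting files.
-/

set_option autoImplicit false

namespace Pool.Agent.Results.MP_117856_lc.EquistableCoNPComplete

open Pool.Agent.NPC Pool.Agent.H622R2 Pool.Agent.H609R2 Pool.Agent.Y602.EQ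

/-- **EQUISTABLE is coNP-complete**; it is in `NP` if and only if `NP = coNP`. -/
theorem result : InCoNPP (fun M : List (List Bool) => Equistable (matGraph M)) ∧
    CoNPHardP (fun M : List (List Bool) => Equistable (matGraph M)) ∧
    (InNPP (fun M : List (List Bool) => Equistable (matGraph M)) ↔
      ∀ L : Set (List Bool), InNP L ↔ InCoNP L) := by
  have h : CoNPHardP (fun M : List (List Bool) => Equistable (matGraph M)) :=
    hardI_not_equistable.toCoNPHardP
  refine ⟨inCoNP_equistable, h, fun h' => ?_, fun h' => (h' _).2 inCoNP_equistable⟩
  have h1 : ∀ L : Set (List Bool), InCoNP L → InNP L := fun L hL =>
    CoNPHard.collapse609 h h' L hL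
  intro L
  refine ⟨fun hL => ?_, h1 L⟩
  have h2 : InCoNP Lᶜ := by
    unfold InCoNP
    rwa [compl_compl]
  exact h1 _ h2

end Pool.Agent.Results.MP_117856_lc.EquistableCoNPComplete
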